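import Mathlib

/-!
# Project HP (helper19), piece LM (helper183): counting in the quotient

`𝒦` a family of `k`-spaces over the field with two elements in dimension at most `k + 4`, without a
common point: at most `13 / 16 * 4 ^ k` planes (spaces of dimension two) meet all of them.
-/

set_option autoImplicit false

open Module Submodule Finset

namespace Run7.h183.HP

variable {K : Type} [Field K] [Finite K] {W : Type} [AddCommGroup W] [Module K W] [Finite W]

open scoped Classical in
theorem card_mem [Fintype W] (hq : Nat.card K = 2) (A : Submodule K W) :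
    (univ.filter (fun v : W => v ∈ A)).card = 2 ^ finrank K A := by
  have h1 : Nat.card A = Nat.card K ^ finrank K A := Module.natCard_eq_pow_finrank
  rw [hq] at h1
  rw [← h1, Nat.card_eq_fintype_card, Fintype.card_subtype]

theorem two_zero (hq : Nat.card K = 2) (v : W) : v + v = 0 := by
  have h1 : (Nat.card K : K) = 0 := by
    haveI := Fintype.ofFinite K
    rw [Nat.card_eq_fintype_card]
    exact Nat.cast_card_eq_zero K
  rw [hq] at h1
  have h2 : (2 : K) = 0 := by exact_mod_cast h1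
  rw [← two_smul K v, h2, zero_smul]

theorem plane_elts (hq : Nat.card K = 2) (S : Submodule K W) (hS : finrank K S = 2) {u v : W}
    (hu : u ∈ S) (hv : v ∈ S) (hu0 : u ≠ 0) (hv0 : v ≠ 0) (huv : u ≠ v) :
    ∀ s ∈ S, s = 0 ∨ s = u ∨ s = v ∨ s = u + v := by
  classical
  haveI := Fintype.ofFinite W
  have h1 := card_mem hq S
  rw [hS] at h1
  have h2 : ({0, u, v, u + v} : Finset W).card = 4 := by
    have h01 : (0 : W) ∉ ({u, v, u + v} : Finset W) := by
      simp only [Finset.mem_insert, Finset.mem_singleton, not_or]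
      refine ⟨fun h => hu0 h.symm, fun h => hv0 h.symm, fun h => huv ?_⟩
      have h3 := two_zero hq v
      have h4 : u + v = v + v := by rw [h3, ← h]
      exact add_right_cancel h4
    have h02 : u ∉ ({v, u + v} : Finset W) := by
      simp only [Finset.mem_insert, Finset.mem_singleton, not_or]
      refine ⟨huv, fun h => hv0 ?_⟩
      have h4 : u + 0 = u + v := by rw [add_zero]; exact h
      exact (add_left_cancel h4).symm
    have h03 : v ∉ ({u + v} : Finset W) := by
      simp only [Finset.mem_singleton]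
      intro h
      apply hu0
      have h4 : 0 + v = u + v := by rw [zero_add]; exact h
      exact (add_right_cancel h4).symm
    rw [Finset.card_insert_of_notMem h01, Finset.card_insert_of_notMem h02,
      Finset.card_insert_of_notMem h03, Finset.card_singleton]
  have h3 : ({0, u, v, u + v} : Finset W) ⊆ univ.filter (fun v : W => v ∈ S) := by
    intro w hw
    simp only [Finset.mem_insert, Finset.mem_singleton] at hw
    simp only [Finset.mem_filter, Finset.mem_univ, true_and]
    rcases hw with rfl | rfl | rfl | rfl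
    · exact S.zero_mem
    · exact hu
    · exact hv
    · exact S.add_mem hu hv
  have h4 := Finset.eq_of_subset_of_card_le h3 (by rw [h1, h2]; norm_num)
  intro s hs
  have h5 : s ∈ ({0, u, v, u + v} : Finset W) := by
    rw [h4]
    simp only [Finset.mem_filter, Finset.mem_univ, true_and]
    exact hs
  simpa only [Finset.mem_insert, Finset.mem_singleton] using h5

theorem plane_span (hq : Nat.card K = 2) (S : Submodule K W) (hS : finrank K S = 2) {u v : W}
    (hu : u ∈ S) (hv : v ∈ S) (hu0 : u ≠ 0) (hv0 : v ≠ 0) (huv : u ≠ v) :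
    S = span K {u, v} := by
  apply le_antisymm
  · intro s hs
    have hu' : u ∈ span K ({u, v} : Set W) := subset_span (by simp)
    have hv' : v ∈ span K ({u, v} : Set W) := subset_span (by simp)
    rcases plane_elts hq S hS hu hv hu0 hv0 huv s hs with h | h | h | h
    · rw [h]
      exact Submodule.zero_mem _
    · rw [h]
      exact hu'
    · rw [h]
      exact hv'
    · rw [h]
      exact Submodule.add_mem _ hu' hv'
  · rw [span_le]
    intro w hw
    rcases hw with rfl | hw
    · exact hu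
    · rw [Set.mem_singleton_iff.1 hw]
      exact hv

theorem ne_zero_of_ne_bot {A B : Submodule K W} (h : A ⊓ B ≠ ⊥) :
    ∃ v, v ∈ A ∧ v ∈ B ∧ v ≠ 0 := by
  obtain ⟨v, hv, hv0⟩ := Submodule.exists_mem_ne_zero_of_ne_bot h
  exact ⟨v, hv.1, hv.2, hv0⟩

open scoped Classical in
theorem lmw (hq : Nat.card K = 2) (k : ℕ) (hk : 5 ≤ k) (hW : finrank K W ≤ k + 4)
    (𝒦 : Finset (Submodule K W)) (hK : ∀ A ∈ 𝒦, finrank K A = k)
    (hno : ∀ r : W, r ≠ 0 → ∃ C ∈ 𝒦, r ∉ C) (𝒮 : Finset (Submodule K W))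
    (h𝒮 : ∀ S ∈ 𝒮, finrank K S = 2) (hmeet : ∀ S ∈ 𝒮, ∀ A ∈ 𝒦, S ⊓ A ≠ ⊥) :
    16 * 𝒮.card ≤ 13 * 4 ^ k := by
  haveI := Fintype.ofFinite W
  rcases 𝒮.eq_empty_or_nonempty with rfl | ⟨S0, hS0⟩
  · simp
  have hpt : ∀ S : Submodule K W, 0 < finrank K S → ∃ v ∈ S, v ≠ 0 := by
    intro S hS
    apply Submodule.exists_mem_ne_zero_of_ne_bot
    rintro rfl
    simp at hS
  obtain ⟨r0, -, hr0⟩ := hpt S0 (by rw [h𝒮 S0 hS0]; norm_num)
  obtain ⟨A0, hA0, -⟩ := hno r0 hr0
  obtain ⟨r1, hr1, hr10⟩ := hpt A0 (by rw [hK A0 hA0]; omega)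
  obtain ⟨B0, hB0, hB0'⟩ := hno r1 hr10
  have hne : A0 ≠ B0 := fun h => hB0' (h ▸ hr1)
  obtain ⟨⟨A, B⟩, hAB, hmax⟩ := Finset.exists_max_image
    ((𝒦 ×ˢ 𝒦).filter (fun p => p.1 ≠ p.2)) (fun p => finrank K (p.1 ⊓ p.2 : Submodule K W))
    ⟨(A0, B0), by simp only [Finset.mem_filter, Finset.mem_product]; exact ⟨⟨hA0, hB0⟩, hne⟩⟩
  simp only [Finset.mem_filter, Finset.mem_product] at hAB hmax
  obtain ⟨⟨hA, hB⟩, hABne⟩ := hAB
  obtain ⟨m, hm⟩ : ∃ m, finrank K (A ⊓ B : Submodule K W) = m := ⟨_, rfl⟩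
  have hmk : m < k := by
    by_contra hge
    have h1 : finrank K (A ⊓ B : Submodule K W) ≤ finrank K A :=
      Submodule.finrank_mono inf_le_left
    have h2 : A ⊓ B = A := Submodule.eq_of_le_of_finrank_eq inf_le_left (by
      rw [hK A hA] at h1 ⊢; omega)
    have h3 : A ⊓ B = B := Submodule.eq_of_le_of_finrank_eq inf_le_right (by
      rw [hK B hB]; rw [hK A hA] at h1; omega)
    exact hABne (h2.symm.trans h3)
  have hm1 : 1 ≤ m := by
    have h1 := Submodule.finrank_sup_add_finrank_inf_eq A B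
    have h2 : finrank K (A ⊔ B : Submodule K W) ≤ finrank K W := Submodule.finrank_le _
    rw [hK A hA, hK B hB, hm] at h1
    omega
  choose! C hC1 hC2 using hno
  -- planes through a point of `A ⊓ B`
  obtain ⟨N, hN⟩ : ∃ N : Finset W, N = univ.filter (fun v : W => v ∈ A ⊓ B) := ⟨_, rfl⟩
  have hNc : N.card = 2 ^ m := by rw [hN, card_mem hq, hm]
  obtain ⟨P1, hP1⟩ : ∃ P1 : Finset (Submodule K W), P1 = (N.erase 0).biUnion
    (fun r => (univ.filter (fun v : W => v ∈ C r)).image (fun c => span K ({r, c} : Set W))) :=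
    ⟨_, rfl⟩
  have hP1c : P1.card ≤ 2 ^ m * 2 ^ k := by
    rw [hP1]
    refine le_trans (Finset.card_biUnion_le_card_mul _ _ (2 ^ k) ?_) ?_
    · intro r hr
      refine le_trans Finset.card_image_le ?_
      rw [card_mem hq, hK (C r) (hC1 r (Finset.ne_of_mem_erase hr))]
    · apply Nat.mul_le_mul_right
      rw [← hNc]
      exact Finset.card_le_card (Finset.erase_subset _ _)
  have hmem1 : ∀ S ∈ 𝒮, S ⊓ (A ⊓ B) ≠ ⊥ → S ∈ P1 := by
    intro S hS hne'
    obtain ⟨r, hrS, hrAB, hr0'⟩ := ne_zero_of_ne_bot hne'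
    obtain ⟨c, hcS, hcC, hc0⟩ := ne_zero_of_ne_bot (hmeet S hS (C r) (hC1 r hr0'))
    have hrc : r ≠ c := fun h => hC2 r hr0' (h ▸ hcC)
    rw [hP1, Finset.mem_biUnion]
    refine ⟨r, Finset.mem_erase.2 ⟨hr0', by rw [hN]; simpa using hrAB⟩, ?_⟩
    rw [Finset.mem_image]
    exact ⟨c, by simpa using hcC, (plane_span hq S (h𝒮 S hS) hrS hcS hr0' hc0 hrc).symm⟩
  have hpair : ∀ S ∈ 𝒮, ¬ S ⊓ (A ⊓ B) ≠ ⊥ → ∃ a b : W, a ∈ S ∧ b ∈ S ∧ a ∈ A ∧ b ∈ B ∧ a ≠ 0 ∧
      b ≠ 0 ∧ a ∉ N ∧ b ∉ N ∧ a ≠ b ∧ S = span K ({a, b} : Set W) := by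
    intro S hS hbot
    rw [not_not] at hbot
    obtain ⟨a, haS, haA, ha0⟩ := ne_zero_of_ne_bot (hmeet S hS A hA)
    obtain ⟨b, hbS, hbB, hb0⟩ := ne_zero_of_ne_bot (hmeet S hS B hB)
    have hnot : ∀ v ∈ S, v ≠ 0 → v ∉ A ⊓ B := by
      intro v hvS hv0 hvAB
      apply hv0
      have h1 : v ∈ S ⊓ (A ⊓ B) := ⟨hvS, hvAB⟩
      rw [hbot] at h1
      exact (Submodule.mem_bot K).1 h1
    have haN := hnot a haS ha0
    have hbN := hnot b hbS hb0
    have hab : a ≠ b := fun h => haN ⟨haA, h ▸ hbB⟩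
    exact ⟨a, b, haS, hbS, haA, hbB, ha0, hb0, by rw [hN]; simpa using haN,
      by rw [hN]; simpa using hbN, hab, plane_span hq S (h𝒮 S hS) haS hbS ha0 hb0 hab⟩
  have h4k : 4 ^ k = 2 ^ k * 2 ^ k := by
    rw [← Nat.mul_pow]
  by_cases hcase : k ≤ m + 2
  · obtain ⟨D1, hD1⟩ : ∃ D1 : Finset W, D1 = univ.filter (fun v : W => v ∈ A) \ N := ⟨_, rfl⟩
    obtain ⟨D2, hD2⟩ : ∃ D2 : Finset W, D2 = univ.filter (fun v : W => v ∈ B) \ N := ⟨_, rfl⟩
    have hD1c : D1.card + 2 ^ m = 2 ^ k := by
      have h1 := Finset.card_sdiff_add_card_eq_card (s := N)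
        (t := univ.filter (fun v : W => v ∈ A)) (by
          intro v hv
          rw [hN] at hv
          simp only [Finset.mem_filter, Finset.mem_univ, true_and] at hv ⊢
          exact hv.1)
      rw [card_mem hq, hK A hA, hNc, ← hD1] at h1
      exact h1
    have hD2c : D2.card + 2 ^ m = 2 ^ k := by
      have h1 := Finset.card_sdiff_add_card_eq_card (s := N)
        (t := univ.filter (fun v : W => v ∈ B)) (by
          intro v hv
          rw [hN] at hv
          simp only [Finset.mem_filter, Finset.mem_univ, true_and] at hv ⊢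
          exact hv.2)
      rw [card_mem hq, hK B hB, hNc, ← hD2] at h1
      exact h1
    have hsub : 𝒮 ⊆ P1 ∪ (D1 ×ˢ D2).image (fun p => span K ({p.1, p.2} : Set W)) := by
      intro S hS
      rw [Finset.mem_union]
      by_cases h1 : S ⊓ (A ⊓ B) ≠ ⊥
      · exact Or.inl (hmem1 S hS h1)
      · right
        obtain ⟨a, b, haS, hbS, haA, hbB, ha0, hb0, haN, hbN, hab, hspan⟩ := hpair S hS h1
        rw [Finset.mem_image]
        refine ⟨(a, b), ?_, hspan.symm⟩
        rw [Finset.mem_product, hD1, hD2]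
        exact ⟨Finset.mem_sdiff.2 ⟨by simpa using haA, haN⟩,
          Finset.mem_sdiff.2 ⟨by simpa using hbB, hbN⟩⟩
    have hcard : 𝒮.card ≤ 2 ^ m * 2 ^ k + D1.card * D2.card := by
      refine le_trans (Finset.card_le_card hsub) (le_trans (Finset.card_union_le _ _) ?_)
      refine Nat.add_le_add hP1c (le_trans Finset.card_image_le ?_)
      rw [Finset.card_product]
    obtain ⟨t, ht⟩ : ∃ t, 2 ^ m = t := ⟨_, rfl⟩
    have hk2 : k = m + 1 ∨ k = m + 2 := by omega
    rw [h4k]
    rw [ht] at hD1c hD2c hcard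
    rcases hk2 with h1 | h1
    · have h2 : 2 ^ k = 2 * t := by rw [h1, pow_succ, ht]; ring
      rw [h2] at hD1c hD2c hcard ⊢
      have h3 : D1.card = t := by omega
      have h4 : D2.card = t := by omega
      rw [h3, h4] at hcard
      nlinarith
    · have h2 : 2 ^ k = 4 * t := by rw [h1, pow_add, ht]; ring
      rw [h2] at hD1c hD2c hcard ⊢
      have h3 : D1.card = 3 * t := by omega
      have h4 : D2.card = 3 * t := by omega
      rw [h3, h4] at hcard
      nlinarith
  · have hk3 : m + 3 ≤ k := by omega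
    obtain ⟨r, hrAB, hr0'⟩ := hpt (A ⊓ B) (by omega)
    have hCA : C r ≠ A := fun h => hC2 r hr0' (h ▸ hrAB.1)
    have hCB : C r ≠ B := fun h => hC2 r hr0' (h ▸ hrAB.2)
    have hmA := hmax (A, C r) ⟨⟨hA, hC1 r hr0'⟩, fun h => hCA h.symm⟩
    have hmB := hmax (B, C r) ⟨⟨hB, hC1 r hr0'⟩, fun h => hCB h.symm⟩
    simp only [hm] at hmA hmB
    obtain ⟨D, hD⟩ : ∃ D, D = C r := ⟨_, rfl⟩
    have hDK : D ∈ 𝒦 := hD ▸ hC1 r hr0'
    rw [← hD] at hmA hmB
    obtain ⟨Q, hQ⟩ : ∃ Q : Finset (W × W), Q =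
      (univ.filter (fun v : W => v ∈ A ⊓ D)) ×ˢ (univ.filter (fun v : W => v ∈ B)) ∪
      (univ.filter (fun v : W => v ∈ A)) ×ˢ (univ.filter (fun v : W => v ∈ B ⊓ D)) ∪
      ((univ.filter (fun v : W => v ∈ A)) ×ˢ (univ.filter (fun v : W => v ∈ B))).filter
        (fun p => p.1 + p.2 ∈ D) := ⟨_, rfl⟩
    have hQ3 : (((univ.filter (fun v : W => v ∈ A)) ×ˢ (univ.filter (fun v : W => v ∈ B))).filter
        (fun p => p.1 + p.2 ∈ D)).card ≤ 2 ^ m * 2 ^ k := by
      have h1 := Finset.card_le_mul_card_image_of_maps_to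
        (s := ((univ.filter (fun v : W => v ∈ A)) ×ˢ (univ.filter (fun v : W => v ∈ B))).filter
          (fun p => p.1 + p.2 ∈ D)) (t := univ.filter (fun v : W => v ∈ D))
        (f := fun p : W × W => p.1 + p.2) (by
          intro p hp
          simp only [Finset.mem_filter, Finset.mem_univ, true_and] at hp ⊢
          exact hp.2) (2 ^ m) (by
          intro b _
          rcases Finset.eq_empty_or_nonempty
            ((((univ.filter (fun v : W => v ∈ A)) ×ˢ (univ.filter (fun v : W => v ∈ B))).filter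
              (fun p => p.1 + p.2 ∈ D)).filter (fun p : W × W => p.1 + p.2 = b)) with h2 | ⟨p0, hp0⟩
          · rw [h2]
            simp
          · rw [← hNc]
            simp only [Finset.mem_filter, Finset.mem_product, Finset.mem_univ, true_and] at hp0
            refine Finset.card_le_card_of_injOn (fun p => p.1 - p0.1) ?_ ?_
            · intro p hp
              simp only [Finset.coe_filter, Finset.mem_filter, Finset.mem_product,
                Finset.mem_univ, true_and, Set.mem_setOf_eq] at hp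
              rw [hN]
              simp only [Finset.coe_filter, Finset.mem_univ, true_and, Set.mem_setOf_eq]
              refine ⟨A.sub_mem hp.1.1.1 hp0.1.1.1, ?_⟩
              have h3 : p.1 - p0.1 = p0.2 - p.2 := by
                rw [sub_eq_sub_iff_add_eq_add, hp.2, add_comm, hp0.2]
              rw [h3]
              exact B.sub_mem hp0.1.1.2 hp.1.1.2
            · intro p hp p' hp' h3
              simp only [Finset.coe_filter, Finset.mem_filter, Finset.mem_product,
                Finset.mem_univ, true_and, Set.mem_setOf_eq] at hp hp'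
              have h4 : p.1 = p'.1 := sub_left_injective h3
              have h5 : p.2 = p'.2 := by
                have h6 := hp.2.trans hp'.2.symm
                rw [h4] at h6
                exact add_left_cancel h6
              exact Prod.ext h4 h5)
      rw [card_mem hq, hK D hDK] at h1
      exact h1
    have hQc : Q.card ≤ 3 * (2 ^ m * 2 ^ k) := by
      rw [hQ]
      refine le_trans (Finset.card_union_le _ _) ?_
      have h1 := Finset.card_union_le
        ((univ.filter (fun v : W => v ∈ A ⊓ D)) ×ˢ (univ.filter (fun v : W => v ∈ B)))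
        ((univ.filter (fun v : W => v ∈ A)) ×ˢ (univ.filter (fun v : W => v ∈ B ⊓ D)))
      rw [Finset.card_product, Finset.card_product, card_mem hq, card_mem hq, card_mem hq,
        card_mem hq, hK A hA, hK B hB] at h1
      have h2 : 2 ^ finrank K (A ⊓ D : Submodule K W) ≤ 2 ^ m :=
        Nat.pow_le_pow_right (by norm_num) hmA
      have h3 : 2 ^ finrank K (B ⊓ D : Submodule K W) ≤ 2 ^ m :=
        Nat.pow_le_pow_right (by norm_num) hmB
      have h4 := Nat.mul_le_mul_right (2 ^ k) h2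
      have h5 := Nat.mul_le_mul_left (2 ^ k) h3
      rw [Nat.mul_comm (2 ^ k) (2 ^ m)] at h5
      omega
    have hsub : 𝒮 ⊆ P1 ∪ Q.image (fun p => span K ({p.1, p.2} : Set W)) := by
      intro S hS
      rw [Finset.mem_union]
      by_cases h1 : S ⊓ (A ⊓ B) ≠ ⊥
      · exact Or.inl (hmem1 S hS h1)
      · right
        obtain ⟨a, b, haS, hbS, haA, hbB, ha0, hb0, haN, hbN, hab, hspan⟩ := hpair S hS h1
        obtain ⟨d, hdS, hdD, hd0⟩ := ne_zero_of_ne_bot (hmeet S hS D hDK)
        rw [Finset.mem_image]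
        refine ⟨(a, b), ?_, hspan.symm⟩
        rw [hQ]
        simp only [Finset.mem_union, Finset.mem_product, Finset.mem_filter, Finset.mem_univ,
          true_and]
        rcases plane_elts hq S (h𝒮 S hS) haS hbS ha0 hb0 hab d hdS with h2 | h2 | h2 | h2
        · exact absurd h2 hd0
        · left; left
          exact ⟨⟨haA, h2 ▸ hdD⟩, hbB⟩
        · left; right
          exact ⟨haA, ⟨hbB, h2 ▸ hdD⟩⟩
        · right
          exact ⟨⟨haA, hbB⟩, h2 ▸ hdD⟩
    have hcard : 𝒮.card ≤ 2 ^ m * 2 ^ k + 3 * (2 ^ m * 2 ^ k) := by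
      refine le_trans (Finset.card_le_card hsub) (le_trans (Finset.card_union_le _ _) ?_)
      exact Nat.add_le_add hP1c (le_trans Finset.card_image_le hQc)
    have h8 : 2 ^ m * 8 ≤ 2 ^ k := by
      have h9 : 2 ^ (m + 3) ≤ 2 ^ k := Nat.pow_le_pow_right (by norm_num) hk3
      rw [pow_add] at h9
      exact h9
    have h10 := Nat.mul_le_mul_right (2 ^ k) h8
    rw [h4k]
    have h11 : 2 ^ m * 8 * 2 ^ k = 8 * (2 ^ m * 2 ^ k) := by ring
    rw [h11] at h10
    omega

end Run7.h183.HP
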