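import Pool.Agent.Run7.h19.HP.Iface
import Pool.Agent.Run7.h183.HP.LMW

/-!
# Project HP (helper19), piece LM (helper183)
-/

set_option autoImplicit false

open Module Submodule Finset Pool.Agent.H99.SubDeg

namespace Run7.h183.HP

open Run7.h19.HP

/-- dimension of the image in the quotient -/
theorem finrank_map_mk {K : Type} [Field K] [Finite K] {V : Type} [AddCommGroup V] [Module K V]
    [Finite V] (X A : Submodule K V) :
    finrank K (A.map X.mkQ) + finrank K (A ⊓ X : Submodule K V) = finrank K A := by
  have h1 := LinearMap.finrank_range_add_finrank_ker (X.mkQ.domRestrict A)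
  have h2 : LinearMap.range (X.mkQ.domRestrict A) = A.map X.mkQ := by
    rw [LinearMap.range_domRestrict]
  have h3 : finrank K (LinearMap.ker (X.mkQ.domRestrict A)) = finrank K (A ⊓ X : Submodule K V) := by
    have h4 : (LinearMap.ker (X.mkQ.domRestrict A)).map A.subtype = A ⊓ X := by
      rw [LinearMap.ker_domRestrict, Submodule.ker_mkQ, Submodule.map_comap_subtype]
    rw [← h4]
    exact (LinearEquiv.finrank_eq (Submodule.equivMapOfInjective A.subtype
      A.injective_subtype _))
  rw [h2, h3] at h1
  exact h1

open scoped Classical in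
theorem t_LM : S_LM := by
  intro K _ _ V _ _ _ k τ F T h hkτ X hX
  have hfq : finrank K (V ⧸ X) + finrank K X = 2 * k + 1 := by
    rw [Submodule.finrank_quotient_add_finrank, h.hn]
  have hτk := h.hτk
  have hk := h.hk
  have hinf : ∀ A : Submodule K V, A ⊓ X = ⊥ → finrank K (A.map X.mkQ) = finrank K A := by
    intro A hA
    have h1 := finrank_map_mk X A
    rw [hA, finrank_bot] at h1
    omega
  have hsup : ∀ S : Submodule K V, X ≤ S → finrank K S = τ → finrank K (S.map X.mkQ) = 2 := by
    intro S hXS hS
    have h1 := finrank_map_mk X S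
    rw [inf_eq_right.2 hXS] at h1
    omega
  haveI : Finite (V ⧸ X) := Finite.of_surjective X.mkQ X.mkQ_surjective
  have key := lmw (W := V ⧸ X) h.hq k (by omega) (by omega)
    ((F.filter (fun A => A ⊓ X = ⊥)).image (fun A => A.map X.mkQ)) (by
      intro A' hA'
      rw [Finset.mem_image] at hA'
      obtain ⟨A, hA, rfl⟩ := hA'
      rw [Finset.mem_filter] at hA
      rw [hinf A hA.2]
      exact h.hF.1.1 A hA.1) (by
      intro r hr
      obtain ⟨v, rfl⟩ := X.mkQ_surjective r
      have hvX : v ∉ X := by
        intro hv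
        apply hr
        rwa [Submodule.mkQ_apply, Submodule.Quotient.mk_eq_zero]
      have hv0 : v ≠ 0 := fun h0 => hvX (h0 ▸ X.zero_mem)
      have h1 : finrank K (X ⊔ span K {v} : Submodule K V) < τ := by
        have h2 := Submodule.finrank_add_le_finrank_add_finrank X (span K ({v} : Set V))
        have h3 := finrank_span_singleton (K := K) hv0
        rw [h3] at h2
        omega
      have h4 := h.hmin _ h1
      unfold Transv at h4
      push Not at h4
      obtain ⟨B, hB, hB2⟩ := h4
      have hBX : B ⊓ X = ⊥ := by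
        rw [eq_bot_iff, ← hB2]
        exact inf_le_inf_left _ le_sup_left
      refine ⟨B.map X.mkQ, ?_, ?_⟩
      · rw [Finset.mem_image]
        exact ⟨B, Finset.mem_filter.2 ⟨hB, hBX⟩, rfl⟩
      · intro hmem
        obtain ⟨b, hb, hbv⟩ := hmem
        have h5 : b - v ∈ X := by
          rw [← Submodule.Quotient.mk_eq_zero, Submodule.Quotient.mk_sub]
          rw [Submodule.mkQ_apply, Submodule.mkQ_apply] at hbv
          rw [hbv, sub_self]
        have h6 : b ∈ B ⊓ (X ⊔ span K {v}) := by
          refine ⟨hb, ?_⟩
          have h7 : b = (b - v) + v := by abel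
          rw [h7]
          exact Submodule.add_mem _ (Submodule.mem_sup_left h5)
            (Submodule.mem_sup_right (Submodule.mem_span_singleton_self v))
        rw [hB2] at h6
        have h8 : b = 0 := (Submodule.mem_bot K).1 h6
        apply hr
        rw [← hbv, h8, map_zero])
    (((TT F τ).filter (fun S => X ≤ S)).image (fun S => S.map X.mkQ)) (by
      intro S' hS'
      rw [Finset.mem_image] at hS'
      obtain ⟨S, hS, rfl⟩ := hS'
      simp only [TT, Finset.mem_filter, Finset.mem_univ, true_and] at hS
      exact hsup S hS.2 hS.1.1) (by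
      intro S' hS' A' hA'
      rw [Finset.mem_image] at hS' hA'
      obtain ⟨S, hS, rfl⟩ := hS'
      obtain ⟨A, hA, rfl⟩ := hA'
      simp only [TT, Finset.mem_filter, Finset.mem_univ, true_and] at hS
      rw [Finset.mem_filter] at hA
      have h1 : A ⊓ S ≠ ⊥ := hS.1.2 A hA.1
      obtain ⟨v, hv, hv0⟩ := Submodule.exists_mem_ne_zero_of_ne_bot h1
      intro hbot
      have h2 : X.mkQ v ∈ S.map X.mkQ ⊓ A.map X.mkQ :=
        ⟨Submodule.mem_map_of_mem hv.2, Submodule.mem_map_of_mem hv.1⟩
      rw [hbot] at h2
      have h3 : X.mkQ v = 0 := (Submodule.mem_bot K).1 h2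
      have h4 : v ∈ X := by
        rwa [Submodule.mkQ_apply, Submodule.Quotient.mk_eq_zero] at h3
      have h5 : v ∈ A ⊓ X := ⟨hv.1, h4⟩
      rw [hA.2] at h5
      exact hv0 ((Submodule.mem_bot K).1 h5))
  rw [Finset.card_image_of_injOn] at key
  · exact key
  · intro S hS S' hS' heq
    simp only [Finset.coe_filter, Set.mem_setOf_eq] at hS hS'
    have h1 : (S.map X.mkQ).comap X.mkQ = (S'.map X.mkQ).comap X.mkQ := by
      have h2 : S.map X.mkQ = S'.map X.mkQ := heq
      rw [h2]
    rw [Submodule.comap_map_mkQ, Submodule.comap_map_mkQ, sup_eq_right.2 hS.2,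
      sup_eq_right.2 hS'.2] at h1
    exact h1

end Run7.h183.HP
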